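import Pool.Agent.U605.MMD

/-!
# Hölder maps of the interval do not have metric mean dimension one

An `α`-Hölder map of `[0, 1]` has upper metric mean dimension at most `1 - α`: a cell of length
`ε` is mapped into a set of diameter `O(ε^α)`, which meets `O(ε^(α-1))` cells, and points with the
same itinerary are not separated.
-/

set_option autoImplicit false

open scoped NNReal
open Pool.Agent.U605.MMD

namespace Pool.Agent.Results.MP_428550_an.HolderBound

/-- For `0 < α ≤ 1` every `α`-Hölder continuous map of `[0, 1]` has upper metric mean dimension at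
most `1 - α`; in particular it is not equal to `1`. -/
theorem result (α : ℝ≥0) (h0 : 0 < α) (h1 : α ≤ 1) (φ : Set.Icc (0 : ℝ) 1 → Set.Icc (0 : ℝ) 1)
    (hφ : ∃ K : ℝ≥0, HolderWith K α φ) :
    upperMdim φ ≤ ((1 - (α : ℝ) : ℝ) : EReal) ∧ upperMdim φ ≠ 1 := by
  obtain ⟨K, hK⟩ := hφ
  have hα : (α : ℝ) ≤ 1 := by exact_mod_cast h1
  have h := upperMdim_le hα hK
  refine ⟨h, fun h2 => ?_⟩
  rw [h2] at h
  have h3 : (1 : ℝ) ≤ 1 - (α : ℝ) := by exact_mod_cast h
  have h4 : (0 : ℝ) < α := by exact_mod_cast h0
  linarith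

end Pool.Agent.Results.MP_428550_an.HolderBound
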